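import Pool.Agent.X23.HP.Walk

/-!
# The range of the walk
-/

set_option autoImplicit false

open Finset

namespace Pool.Agent.X23.HP

/-- the return probabilities -/
noncomputable def qr (n : ℕ) : ℝ := PE n (fun l => if vl l = 0 then 1 else 0)

theorem PE_eq_sum (n : ℕ) (F : List TT → ℝ) :
    PE n F = (1 / 16) ^ n * ∑ ω : Fin n → TT, F (List.ofFn ω) := by
  induction n generalizing F with
  | zero => simp [PE]
  | succ n ih =>
    rw [PE]
    simp only [ih]
    rw [← Finset.mul_sum, ← mul_assoc, ← pow_succ']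
    congr 1
    rw [← Fintype.sum_prod_type' (f := fun (τ : TT) (ω : Fin n → TT) => F (τ :: List.ofFn ω))]
    apply Fintype.sum_equiv (Fin.consEquiv (fun _ => TT))
    rintro ⟨τ, ω⟩
    congr 1
    change τ :: List.ofFn ω = List.ofFn (Fin.cons τ ω : Fin (n + 1) → TT)
    rw [List.ofFn_cons]

theorem vl_ofFn (n : ℕ) (ω : Fin n → TT) (i : Fin 4) :
    vl (List.ofFn ω) i = ∑ j, (if ω j i then 1 else -1) := by
  induction n with
  | zero => simp [vl]
  | succ n ih =>
    rw [List.ofFn_succ, vl, Pi.add_apply, ih, Fin.sum_univ_succ]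
    rfl

/-- one-dimensional returns -/
def cn (n : ℕ) : Finset (Fin n → Bool) :=
  univ.filter (fun s => ∑ j, (if s j then (1 : ℤ) else -1) = 0)

theorem card_return (n : ℕ) :
    #(univ.filter (fun ω : Fin n → TT => vl (List.ofFn ω) = 0)) = #(cn n) ^ 4 := by
  have h1 : #(Fintype.piFinset (fun _ : Fin 4 => cn n)) = #(cn n) ^ 4 := by
    rw [Fintype.card_piFinset]
    simp
  rw [← h1]
  apply Finset.card_bij' (fun ω _ => fun i j => ω j i) (fun s _ => fun j i => s i j)
  · intro ω hω
    rw [mem_filter] at hω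
    rw [Fintype.mem_piFinset]
    intro i
    rw [cn, mem_filter]
    refine ⟨mem_univ _, ?_⟩
    rw [← vl_ofFn, hω.2]
    rfl
  · intro s hs
    rw [Fintype.mem_piFinset] at hs
    rw [mem_filter]
    refine ⟨mem_univ _, ?_⟩
    funext i
    rw [vl_ofFn]
    exact (mem_filter.1 (hs i)).2
  · intro ω _
    rfl
  · intro s _
    rfl

theorem sum_pm {n : ℕ} (s : Fin n → Bool) :
    ∑ j, (if s j then (1 : ℤ) else -1) = 2 * (#(univ.filter (fun j => s j = true)) : ℤ) - n := by
  have h1 : ∀ j, (if s j then (1 : ℤ) else -1) = 2 * (if s j then 1 else 0) - 1 := by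
    intro j
    split_ifs <;> norm_num
  simp only [h1]
  rw [Finset.sum_sub_distrib, ← Finset.mul_sum, Finset.sum_boole]
  simp

theorem cn_odd (k : ℕ) : #(cn (2 * k + 1)) = 0 := by
  rw [card_eq_zero, cn, filter_eq_empty_iff]
  intro s _ h
  rw [sum_pm] at h
  push_cast at h
  omega

theorem cn_even (k : ℕ) : #(cn (2 * k)) ≤ Nat.centralBinom k := by
  have h1 : #(cn (2 * k)) ≤ #(powersetCard k (univ : Finset (Fin (2 * k)))) := by
    apply Finset.card_le_card_of_injOn (fun s => univ.filter (fun j => s j = true))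
    · intro s hs
      rw [mem_coe, cn, mem_filter, sum_pm] at hs
      rw [mem_coe, mem_powersetCard]
      refine ⟨filter_subset _ _, ?_⟩
      have := hs.2
      push_cast at this
      change #(univ.filter (fun j => s j = true)) = k
      omega
    · intro s _ s' _ h
      funext j
      have := congrArg (fun A : Finset (Fin (2 * k)) => (j ∈ A)) h
      simp only [mem_filter, mem_univ, true_and, eq_iff_iff] at this
      exact Bool.eq_iff_iff.2 this
  rwa [card_powersetCard, card_univ, Fintype.card_fin] at h1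

theorem cb_bound (k : ℕ) : (2 * k + 1) * Nat.centralBinom k ^ 2 ≤ 16 ^ k := by
  induction k with
  | zero => simp
  | succ k ih =>
    have h1 := Nat.succ_mul_centralBinom_succ k
    have h2 : (k + 1) ^ 2 * ((2 * (k + 1) + 1) * Nat.centralBinom (k + 1) ^ 2) ≤
        (k + 1) ^ 2 * 16 ^ (k + 1) := by
      calc (k + 1) ^ 2 * ((2 * (k + 1) + 1) * Nat.centralBinom (k + 1) ^ 2)
          = (2 * k + 3) * ((k + 1) * Nat.centralBinom (k + 1)) ^ 2 := by ring
        _ = (2 * k + 3) * (2 * (2 * k + 1) * Nat.centralBinom k) ^ 2 := by rw [h1]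
        _ = 4 * ((2 * k + 3) * (2 * k + 1)) * ((2 * k + 1) * Nat.centralBinom k ^ 2) := by ring
        _ ≤ 4 * ((2 * k + 2) ^ 2) * 16 ^ k := by
            gcongr
            nlinarith
        _ = (k + 1) ^ 2 * 16 ^ (k + 1) := by ring
    exact Nat.le_of_mul_le_mul_left h2 (by positivity)

theorem qr_eq (n : ℕ) : qr n = (#(cn n) : ℝ) ^ 4 / 16 ^ n := by
  unfold qr
  rw [PE_eq_sum, Finset.sum_boole, card_return]
  push_cast
  rw [one_div, inv_pow]
  ring

theorem qr_odd (k : ℕ) : qr (2 * k + 1) = 0 := by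
  rw [qr_eq, cn_odd]
  simp

theorem qr_even (k : ℕ) : qr (2 * k) ≤ 1 / (2 * (k : ℝ) + 1) ^ 2 := by
  rw [qr_eq]
  have h1 : (#(cn (2 * k)) : ℝ) ≤ Nat.centralBinom k := by exact_mod_cast cn_even k
  have h2 : (2 * (k : ℝ) + 1) * (Nat.centralBinom k : ℝ) ^ 2 ≤ 16 ^ k := by
    exact_mod_cast cb_bound k
  rw [div_le_div_iff₀ (by positivity) (by positivity), one_mul, pow_mul]
  calc (#(cn (2 * k)) : ℝ) ^ 4 * (2 * (k : ℝ) + 1) ^ 2
      ≤ (Nat.centralBinom k : ℝ) ^ 4 * (2 * (k : ℝ) + 1) ^ 2 := by gcongr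
    _ = ((2 * (k : ℝ) + 1) * (Nat.centralBinom k : ℝ) ^ 2) ^ 2 := by ring
    _ ≤ (16 ^ k) ^ 2 := by gcongr
    _ = (16 ^ 2) ^ k := by rw [← pow_mul, ← pow_mul, mul_comm]

theorem qr_nonneg (n : ℕ) : 0 ≤ qr n := by
  rw [qr_eq]
  positivity

theorem sum_qr_even (K : ℕ) :
    ∑ j ∈ range (2 * K), qr (j + 1) ≤ 1 / 4 * (1 - 1 / ((K : ℝ) + 1)) := by
  induction K with
  | zero => simp
  | succ K ih =>
    rw [show 2 * (K + 1) = 2 * K + 1 + 1 by ring, sum_range_succ, sum_range_succ, qr_odd]
    have h1 := qr_even (K + 1)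
    rw [show 2 * (K + 1) = 2 * K + 1 + 1 by ring] at h1
    push_cast at h1 ⊢
    have h2 : 1 / (2 * ((K : ℝ) + 1) + 1) ^ 2 ≤
        1 / 4 * (1 / ((K : ℝ) + 1) - 1 / ((K : ℝ) + 1 + 1)) := by
      have hK : (0 : ℝ) ≤ K := Nat.cast_nonneg K
      have e : 1 / 4 * (1 / ((K : ℝ) + 1) - 1 / ((K : ℝ) + 1 + 1)) =
          1 / (4 * (((K : ℝ) + 1) * ((K : ℝ) + 2))) := by
        field_simp
        ring
      rw [e]
      apply one_div_le_one_div_of_le (by positivity)
      nlinarith
    linarith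

theorem sum_qr (N : ℕ) : ∑ j ∈ range N, qr (j + 1) ≤ 1 / 4 := by
  have h1 : ∑ j ∈ range N, qr (j + 1) ≤ ∑ j ∈ range (2 * N), qr (j + 1) :=
    Finset.sum_le_sum_of_subset_of_nonneg (Finset.range_mono (by omega))
      fun j _ _ => qr_nonneg _
  have h2 := sum_qr_even N
  have h3 : (0 : ℝ) ≤ 1 / ((N : ℝ) + 1) := by positivity
  linarith

theorem mem_AA_iff (l : List TT) (x : V4) :
    x ∈ AA l ↔ ∃ j ≤ l.length, vl (l.take j) = x := by
  induction l generalizing x with
  | nil =>
    simp only [AA, mem_singleton, List.length_nil, nonpos_iff_eq_zero, exists_eq_left,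
      List.take_nil, vl]
    exact eq_comm
  | cons τ l ih =>
    simp only [AA, mem_insert, mem_sh, ih]
    constructor
    · rintro (rfl | ⟨j, hj, h⟩)
      · exact ⟨0, by simp, by simp [vl]⟩
      · refine ⟨j + 1, by simp only [List.length_cons]; omega, ?_⟩
        rw [List.take_succ_cons, vl, h]
        abel
    · rintro ⟨j, hj, h⟩
      rcases j with _ | j
      · left
        rw [← h]
        simp [vl]
      · right
        refine ⟨j, by simp only [List.length_cons] at hj; omega, ?_⟩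
        rw [List.take_succ_cons, vl] at h
        rw [← h]
        abel

theorem PE_take (j n : ℕ) (hj : j ≤ n) (F : List TT → ℝ) :
    PE n (fun l => F (l.take j)) = PE j F := by
  obtain ⟨k, rfl⟩ := Nat.exists_eq_add_of_le hj
  rw [PE_append]
  apply PE_congr
  intro l hl
  have h1 : ∀ l' : List TT, (l ++ l').take j = l := by
    intro l'
    rw [← hl, List.take_left]
  simp only [h1]
  exact PE_const _ _

theorem card_AA_cons (τ : TT) (l : List TT) :
    (#(AA l) : ℝ) + 1 - (∑ j ∈ range (l.length + 1),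
      if vl ((τ :: l).take (j + 1)) = 0 then (1 : ℝ) else 0) ≤ #(AA (τ :: l)) := by
  by_cases h : (0 : V4) ∈ sh (mv τ) (AA l)
  · have h1 : #(AA (τ :: l)) = #(AA l) := by
      rw [AA, insert_eq_of_mem h, card_sh]
    rw [h1]
    rw [mem_sh, mem_AA_iff] at h
    obtain ⟨j, hj, h2⟩ := h
    have h3 : vl ((τ :: l).take (j + 1)) = 0 := by
      rw [List.take_succ_cons, vl, h2]
      abel
    have h4 : (1 : ℝ) ≤ ∑ j ∈ range (l.length + 1),
        if vl ((τ :: l).take (j + 1)) = 0 then (1 : ℝ) else 0 := by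
      calc (1 : ℝ) = if vl ((τ :: l).take (j + 1)) = 0 then (1 : ℝ) else 0 := by rw [if_pos h3]
        _ ≤ _ := Finset.single_le_sum (f := fun j =>
            if vl ((τ :: l).take (j + 1)) = 0 then (1 : ℝ) else 0)
            (fun i _ => by split_ifs <;> norm_num) (mem_range.2 (by omega))
    linarith
  · have h1 : #(AA (τ :: l)) = #(AA l) + 1 := by
      rw [AA, card_insert_of_notMem h, card_sh]
    rw [h1]
    have h4 : (0 : ℝ) ≤ ∑ j ∈ range (l.length + 1),
        if vl ((τ :: l).take (j + 1)) = 0 then (1 : ℝ) else 0 :=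
      Finset.sum_nonneg fun i _ => by split_ifs <;> norm_num
    push_cast
    linarith

theorem PE_card (n : ℕ) : 3 / 4 * (n : ℝ) ≤ PE n (fun l => (#(AA l) : ℝ)) := by
  induction n with
  | zero =>
    simp only [PE, AA]
    simp
  | succ n ih =>
    have h1 : PE (n + 1) (fun l => (#(AA l) : ℝ)) =
        1 / 16 * ∑ τ : TT, PE n (fun l => (#(AA (τ :: l)) : ℝ)) := rfl
    have h2 : ∀ τ : TT, PE n (fun l => (#(AA l) : ℝ) + 1 - (∑ j ∈ range (n + 1),
        if vl ((τ :: l).take (j + 1)) = 0 then (1 : ℝ) else 0)) ≤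
        PE n (fun l => (#(AA (τ :: l)) : ℝ)) := by
      intro τ
      apply PE_mono
      intro l hl
      have := card_AA_cons τ l
      rw [hl] at this
      exact this
    have h3 : PE (n + 1) (fun l => (#(AA l.tail) : ℝ) + 1 - (∑ j ∈ range (n + 1),
        if vl (l.take (j + 1)) = 0 then (1 : ℝ) else 0)) ≤
        PE (n + 1) (fun l => (#(AA l) : ℝ)) := by
      rw [h1, PE]
      have := Finset.sum_le_sum (s := (univ : Finset TT)) fun τ _ => h2 τ
      simp only [List.tail_cons]
      linarith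
    have h4 : PE (n + 1) (fun l => (#(AA l.tail) : ℝ) + 1 - (∑ j ∈ range (n + 1),
        if vl (l.take (j + 1)) = 0 then (1 : ℝ) else 0)) =
        PE n (fun l => (#(AA l) : ℝ)) + 1 - ∑ j ∈ range (n + 1), qr (j + 1) := by
      have e1 : ∀ l : List TT, (#(AA l.tail) : ℝ) + 1 - (∑ j ∈ range (n + 1),
          if vl (l.take (j + 1)) = 0 then (1 : ℝ) else 0) =
          ((#(AA l.tail) : ℝ) + 1) + (-1) * ∑ j ∈ range (n + 1),
            (if vl (l.take (j + 1)) = 0 then (1 : ℝ) else 0) := by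
        intro l; ring
      simp only [e1]
      rw [PE_add', PE_add', PE_mul, PE_sum, PE_const]
      have e2 : PE (n + 1) (fun l => (#(AA l.tail) : ℝ)) = PE n (fun l => (#(AA l) : ℝ)) := by
        rw [PE]
        simp only [List.tail_cons, Finset.sum_const, Finset.card_univ, card_TT, nsmul_eq_mul]
        push_cast
        ring
      have e3 : ∑ j ∈ range (n + 1), PE (n + 1)
          (fun l => if vl (l.take (j + 1)) = 0 then (1 : ℝ) else 0) =
          ∑ j ∈ range (n + 1), qr (j + 1) := by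
        refine Finset.sum_congr rfl fun j hj => ?_
        rw [mem_range] at hj
        exact PE_take (j + 1) (n + 1) (by omega) (fun l => if vl l = 0 then (1 : ℝ) else 0)
      rw [e2, e3]
      ring
    have h5 := sum_qr (n + 1)
    push_cast
    linarith

end Pool.Agent.X23.HP
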