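import Pool.Agent.X23.HP.Double
import Pool.Agent.X23.HP.Range

/-!
# The lamplighter group over `ℤ⁴` does not have the heat property
-/

set_option autoImplicit false

open Finset Complex
open scoped symmDiff ComplexConjugate

namespace Pool.Agent.X23.HP

theorem mul_lamp (S T : Finset V4) (v : V4) : (⟨S, 0⟩ : WG) * ⟨T, v⟩ = ⟨S ∆ T, v⟩ := by
  rw [mul_def']
  ext x
  · simp [mem_symmDiff', mem_sh]
  · simp

/-- An involution `U` satisfies `‖(1 + iU) ξ‖² = 2 ‖ξ‖²`. -/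
theorem norm_one_add_I {H : Type*} [NormedAddCommGroup H] [InnerProductSpace ℂ H]
    (U : H → H) (hU : ∀ (a b : ℂ) x y, U (a • x + b • y) = a • U x + b • U y)
    (hn : ∀ x, ‖U x‖ = ‖x‖) (hUU : ∀ x, U (U x) = x) (x : H) :
    ‖x + (I : ℂ) • U x‖ ^ 2 = 2 * ‖x‖ ^ 2 := by
  have h1 : ‖x + (I : ℂ) • U x‖ = ‖x - (I : ℂ) • U x‖ := by
    have e1 : U (x + (I : ℂ) • U x) = (I : ℂ) • (x - (I : ℂ) • U x) := by
      have := hU 1 I x (U x)
      rw [one_smul, one_smul, hUU] at this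
      rw [this, smul_sub, smul_smul, I_mul_I, neg_one_smul, sub_neg_eq_add, add_comm]
    rw [← hn (x + (I : ℂ) • U x), e1, norm_smul, norm_I, one_mul]
  have h2 := parallelogram_law_with_norm ℂ x ((I : ℂ) • U x)
  rw [← h1, norm_smul, norm_I, one_mul, hn] at h2
  nlinarith

/-- the test element -/
noncomputable def xA (A : Finset V4) (v : V4) : Ell WG →L[ℂ] Ell WG :=
  ∑ R ∈ A.powerset, ((((Real.sqrt 2)⁻¹ ^ #A : ℝ) : ℂ) * I ^ #R) • lam (⟨R, v⟩ : WG)

theorem xA_insert {A : Finset V4} {w : V4} (hw : w ∉ A) (v : V4) (ξ : Ell WG) :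
    xA (insert w A) v ξ = (((Real.sqrt 2)⁻¹ : ℝ) : ℂ) •
      (xA A v ξ + (I : ℂ) • lam (⟨{w}, 0⟩ : WG) (xA A v ξ)) := by
  unfold xA
  simp only [ContinuousLinearMap.sum_apply, ContinuousLinearMap.smul_apply]
  rw [Finset.sum_powerset_insert hw, smul_add, card_insert_of_notMem hw]
  congr 1
  · rw [Finset.smul_sum]
    refine Finset.sum_congr rfl fun R _ => ?_
    rw [smul_smul]
    congr 1
    rw [pow_succ]
    push_cast
    ring
  · rw [map_sum, Finset.smul_sum, Finset.smul_sum]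
    refine Finset.sum_congr rfl fun R hR => ?_
    have hwR : w ∉ R := fun h => hw (mem_powerset.1 hR h)
    rw [map_smul, smul_smul, smul_smul, card_insert_of_notMem hwR]
    have e : lam (⟨insert w R, v⟩ : WG) ξ = lam (⟨{w}, 0⟩ : WG) (lam (⟨R, v⟩ : WG) ξ) := by
      rw [← ContinuousLinearMap.comp_apply, ← lam_mul, mul_lamp, singleton_symmDiff hwR]
    rw [e]
    congr 1
    rw [pow_succ, pow_succ]
    push_cast
    ring

theorem norm_xA_apply (A : Finset V4) (v : V4) (ξ : Ell WG) : ‖xA A v ξ‖ ≤ ‖ξ‖ := by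
  induction A using Finset.induction_on with
  | empty =>
    unfold xA
    simp only [powerset_empty, sum_singleton, card_empty, pow_zero, mul_one, ofReal_one, one_smul]
    exact (norm_lam_apply _ _).le
  | insert w A hw ih =>
    rw [xA_insert hw, norm_smul]
    have h1 := norm_one_add_I (fun η : Ell WG => lam (⟨{w}, 0⟩ : WG) η)
      (fun a b x y => by simp only [map_add, map_smul]) (fun x => norm_lam_apply _ _)
      (fun x => by
        rw [← ContinuousLinearMap.comp_apply, ← lam_mul, mul_lamp, symmDiff_self]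
        have : (⟨⊥, 0⟩ : WG) = 1 := rfl
        rw [this, lam_one]
        rfl) (xA A v ξ)
    have h2 : ‖xA A v ξ + (I : ℂ) • lam (⟨{w}, 0⟩ : WG) (xA A v ξ)‖ = Real.sqrt 2 * ‖xA A v ξ‖ := by
      have h3 : (Real.sqrt 2 * ‖xA A v ξ‖) ^ 2 = 2 * ‖xA A v ξ‖ ^ 2 := by
        rw [mul_pow, Real.sq_sqrt (by norm_num)]
      rw [← h3] at h1
      exact (pow_left_inj₀ (norm_nonneg _) (by positivity) two_ne_zero).1 h1
    rw [h2]
    have h4 : ‖(((Real.sqrt 2)⁻¹ : ℝ) : ℂ)‖ = (Real.sqrt 2)⁻¹ := by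
      rw [norm_real, Real.norm_of_nonneg (by positivity)]
    rw [h4, ← mul_assoc, inv_mul_cancel₀ (by positivity), one_mul]
    exact ih

theorem norm_xA (A : Finset V4) (v : V4) : ‖xA A v‖ ≤ 1 :=
  ContinuousLinearMap.opNorm_le_bound _ zero_le_one fun ξ => by
    rw [one_mul]
    exact norm_xA_apply A v ξ

theorem xA_mem (A : Finset V4) (v : V4) : xA A v ∈ Cr WG :=
  Submodule.sum_mem _ fun R _ => Submodule.smul_mem _ _ (lam_mem _)

/-- A positive combination has large norm. -/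
theorem norm_pos_comb (A : Finset V4) (v : V4) (P : Finset (Finset V4)) (hP : P ⊆ A.powerset)
    (a : Finset V4 → ℝ) (ha : ∀ R ∈ P, 0 ≤ a R) :
    ∑ R ∈ P, a R ≤ ‖∑ R ∈ P, ((a R : ℝ) : ℂ) • lam (⟨R, v⟩ : WG)‖ := by
  set ζ : Ell WG := ∑ R' ∈ A.powerset, dlt (⟨R', 0⟩ : WG) with hζ
  have h1 : ∀ R ∈ P, lam (⟨R, 0⟩ : WG) ζ = ζ := by
    intro R hR
    have hR' := mem_powerset.1 (hP hR)
    rw [hζ, map_sum]
    simp only [lam_dlt, mul_lamp]
    apply Finset.sum_nbij' (fun S => R ∆ S) (fun S => R ∆ S)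
    · intro S hS
      rw [mem_powerset] at hS ⊢
      intro x hx
      rw [mem_symmDiff'] at hx
      by_cases hxw : x ∈ R
      · exact hR' hxw
      · exact hS (by tauto)
    · intro S hS
      rw [mem_powerset] at hS ⊢
      intro x hx
      rw [mem_symmDiff'] at hx
      by_cases hxw : x ∈ R
      · exact hR' hxw
      · exact hS (by tauto)
    · intro S _
      rw [symmDiff_symmDiff_cancel_left]
    · intro S _
      rw [symmDiff_symmDiff_cancel_left]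
    · intro S _
      rfl
  set η : Ell WG := lam (⟨∅, v⟩ : WG)⁻¹ ζ with hη
  have h2 : ∀ R ∈ P, lam (⟨R, v⟩ : WG) η = ζ := by
    intro R hR
    have e : (⟨R, v⟩ : WG) = ⟨R, 0⟩ * ⟨∅, v⟩ := by
      rw [mul_lamp]
      congr 1
      exact (symmDiff_bot R).symm
    rw [hη, ← ContinuousLinearMap.comp_apply, ← lam_mul, e, mul_assoc, mul_inv_cancel, mul_one]
    exact h1 R hR
  have h3 : (∑ R ∈ P, ((a R : ℝ) : ℂ) • lam (⟨R, v⟩ : WG)) η = ((∑ R ∈ P, a R : ℝ) : ℂ) • ζ := by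
    rw [ContinuousLinearMap.sum_apply]
    push_cast
    rw [Finset.sum_smul]
    refine Finset.sum_congr rfl fun R hR => ?_
    change ((a R : ℝ) : ℂ) • lam (⟨R, v⟩ : WG) η = _
    rw [h2 R hR]
  have h4 : ‖η‖ = ‖ζ‖ := norm_lam_apply _ _
  have h5 : ζ ≠ 0 := by
    intro h0
    have h6 : ζ (1 : WG) = 0 := by rw [h0]; rfl
    have h7 : ζ (1 : WG) = 1 := by
      rw [hζ]
      have e1 : ((∑ R' ∈ A.powerset, dlt (⟨R', 0⟩ : WG) : Ell WG) : WG → ℂ) (1 : WG) =
          ∑ R' ∈ A.powerset, (dlt (⟨R', 0⟩ : WG) : WG → ℂ) (1 : WG) := by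
        rw [lp.coeFn_sum, Finset.sum_apply]
      rw [e1, Finset.sum_eq_single ∅]
      · exact dlt_apply_self (1 : WG)
      · intro R' _ hR'
        apply dlt_apply_ne
        intro h8
        apply hR'
        have := congrArg WG.lamp h8
        exact this.symm
      · intro h8
        exact absurd (empty_mem_powerset A) h8
    rw [h6] at h7
    exact zero_ne_one h7
  have h6 : 0 < ‖ζ‖ := norm_pos_iff.2 h5
  have h7 : 0 ≤ ∑ R ∈ P, a R := Finset.sum_nonneg ha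
  have h8 := (∑ R ∈ P, ((a R : ℝ) : ℂ) • lam (⟨R, v⟩ : WG)).le_opNorm η
  rw [h3, norm_smul, norm_real, Real.norm_of_nonneg h7, h4] at h8
  exact le_of_mul_le_mul_right h8 h6

theorem coef_sum_lam (s : Finset (Finset V4)) (v : V4) (a : Finset V4 → ℂ) (R : Finset V4)
    (hR : R ∈ s) : coef (∑ S ∈ s, a S • lam (⟨S, v⟩ : WG)) (⟨R, v⟩ : WG) = a R := by
  rw [← coefL_apply, map_sum, Finset.sum_eq_single R]
  · rw [map_smul, coefL_apply, coef_lam_self, smul_eq_mul, mul_one]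
  · intro S _ hS
    rw [map_smul, coefL_apply, coef_lam_ne, smul_zero]
    intro h
    exact hS (congrArg WG.lamp h).symm
  · intro h
    exact absurd hR h

/-- The key inequality. -/
theorem key_ineq {d : WG → ℝ} {t : ℝ} (M : Cr WG →ₗ[ℂ] Cr WG)
    (hM : ∀ (x : Cr WG) (g : WG), (x : Ell WG →L[ℂ] Ell WG) = lam g →
      (M x : Ell WG →L[ℂ] Ell WG) = (Real.exp (-t * d g) : ℂ) • lam g)
    (C : ℝ) (hC : ∀ (S : Finset WG) (x : Cr WG),
      ‖∑ g ∈ S, coef (M x : Ell WG →L[ℂ] Ell WG) g • lam g‖ ≤ C * ‖(x : Ell WG →L[ℂ] Ell WG)‖)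
    (A : Finset V4) (v : V4) :
    (Real.sqrt 2)⁻¹ ^ #A * ∑ R ∈ A.powerset, Real.exp (-t * d ⟨R, v⟩) ≤ 4 * |C| := by
  set c : ℝ := (Real.sqrt 2)⁻¹ ^ #A with hc
  have hc0 : 0 ≤ c := by positivity
  set x : Cr WG := ⟨xA A v, xA_mem A v⟩ with hx
  have hxs : x = ∑ R ∈ A.powerset, ((c : ℂ) * I ^ #R) • (⟨lam (⟨R, v⟩ : WG), lam_mem _⟩ : Cr WG) := by
    apply Subtype.ext
    rw [Submodule.coe_sum]
    rfl
  have hMx : (M x : Ell WG →L[ℂ] Ell WG) = ∑ R ∈ A.powerset,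
      ((c : ℂ) * I ^ #R * (Real.exp (-t * d ⟨R, v⟩) : ℂ)) • lam (⟨R, v⟩ : WG) := by
    rw [hxs, map_sum, Submodule.coe_sum]
    refine Finset.sum_congr rfl fun R _ => ?_
    rw [map_smul, Submodule.coe_smul, hM _ (⟨R, v⟩ : WG) rfl, smul_smul]
  have hr : ∀ r : ℕ, ∑ R ∈ A.powerset with #R % 4 = r, c * Real.exp (-t * d ⟨R, v⟩) ≤ |C| := by
    intro r
    set P : Finset (Finset V4) := {R ∈ A.powerset | #R % 4 = r} with hP
    have hPs : P ⊆ A.powerset := filter_subset _ _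
    have h1 := hC (P.image fun R => (⟨R, v⟩ : WG)) x
    rw [Finset.sum_image (by
      intro R _ R' _ h
      exact congrArg WG.lamp h)] at h1
    have h2 : ∑ R ∈ P, coef (M x : Ell WG →L[ℂ] Ell WG) (⟨R, v⟩ : WG) • lam (⟨R, v⟩ : WG) =
        (I ^ r : ℂ) • ∑ R ∈ P, ((c * Real.exp (-t * d ⟨R, v⟩) : ℝ) : ℂ) • lam (⟨R, v⟩ : WG) := by
      rw [Finset.smul_sum]
      refine Finset.sum_congr rfl fun R hR => ?_
      rw [hMx, coef_sum_lam _ v (fun R => (c : ℂ) * I ^ #R * (Real.exp (-t * d ⟨R, v⟩) : ℂ)) R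
        (hPs hR), smul_smul]
      congr 1
      have h3 : (I : ℂ) ^ #R = I ^ r := by
        have h4 := (mem_filter.1 hR).2
        rw [← h4]
        conv_lhs => rw [← Nat.div_add_mod (#R) 4, pow_add, pow_mul, I_pow_four, one_pow, one_mul]
      rw [h3]
      push_cast
      ring
    rw [h2, norm_smul, norm_pow, norm_I, one_pow, one_mul] at h1
    have h3 := norm_pos_comb A v P hPs (fun R => c * Real.exp (-t * d ⟨R, v⟩))
      (fun R _ => by positivity)
    refine h3.trans (h1.trans ?_)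
    have h4 : ‖(x : Ell WG →L[ℂ] Ell WG)‖ ≤ 1 := norm_xA A v
    calc C * ‖(x : Ell WG →L[ℂ] Ell WG)‖ ≤ |C| * ‖(x : Ell WG →L[ℂ] Ell WG)‖ := by
          gcongr
          exact le_abs_self C
      _ ≤ |C| * 1 := by gcongr
      _ = |C| := mul_one _
  rw [Finset.mul_sum]
  rw [← Finset.sum_fiberwise_of_maps_to (s := A.powerset) (t := Finset.range 4)
    (g := fun R => #R % 4) (fun R _ => mem_range.2 (Nat.mod_lt _ (by norm_num)))]
  calc _ ≤ ∑ r ∈ Finset.range 4, |C| := Finset.sum_le_sum fun r _ => hr r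
    _ = 4 * |C| := by simp

theorem jensen (A : Finset V4) (φ : Finset V4 → ℝ) (t : ℝ) :
    Real.exp (-t * avgP A φ) * 2 ^ #A ≤ ∑ R ∈ A.powerset, Real.exp (-t * φ R) := by
  set m := avgP A φ with hm
  have h1 : ∀ R, Real.exp (-t * m) * (1 + (-t * φ R - -t * m)) ≤ Real.exp (-t * φ R) := by
    intro R
    have h2 := Real.add_one_le_exp (-t * φ R - -t * m)
    have h3 : Real.exp (-t * φ R) = Real.exp (-t * m) * Real.exp (-t * φ R - -t * m) := by
      rw [← Real.exp_add]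
      congr 1
      ring
    rw [h3]
    gcongr
    linarith
  have h2 := Finset.sum_le_sum (s := A.powerset) fun R _ => h1 R
  refine le_trans (le_of_eq ?_) h2
  rw [← Finset.mul_sum]
  congr 1
  rw [Finset.sum_add_distrib, Finset.sum_sub_distrib, ← Finset.mul_sum, Finset.sum_const,
    Finset.sum_const, card_powerset, hm]
  unfold avgP
  push_cast
  rw [nsmul_eq_mul, nsmul_eq_mul]
  push_cast
  field_simp
  ring

theorem avgP_nonneg (A : Finset V4) (φ : Finset V4 → ℝ) (h : ∀ R, 0 ≤ φ R) : 0 ≤ avgP A φ := by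
  unfold avgP
  exact div_nonneg (Finset.sum_nonneg fun R _ => h R) (by positivity)

/-- There are paths with a large range and a small average of `d`. -/
theorem exists_path {d : WG → ℝ} (hd : NegDef d) :
    ∃ K : ℝ, 0 < K ∧ ∀ k : ℕ, ∃ (A : Finset V4) (v : V4),
      (2 : ℝ) ^ k / 4 ≤ #A ∧ avgP A (fun S => d ⟨S, v⟩) ≤ K * #A := by
  set a := EX 1 d with ha
  have ha0 : 0 ≤ a := by
    have h1 : PE 1 (fun _ => 0) ≤ PE 1 (Av d) :=
      PE_mono 1 fun l _ => avgP_nonneg _ _ fun R => hd.2.1 _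
    rw [PE_const] at h1
    exact h1
  refine ⟨2 * a + 2, by linarith, fun k => ?_⟩
  set n := 2 ^ k with hn
  have hn1 : (1 : ℝ) ≤ n := by
    rw [hn]
    exact_mod_cast Nat.one_le_two_pow
  have h1 := EX_pow k hd
  have h2 := PE_card (2 ^ k)
  rw [← hn] at h1 h2
  have hnk : ((2 : ℝ) ^ k) = n := by rw [hn]; push_cast; rfl
  rw [hnk] at h1
  have h3 : ∃ l : List TT, (3 / 4 * (2 * a + 2) * n - a * n - 1 : ℝ) ≤
      (2 * a + 2) * #(AA l) - Av d l := by
    by_contra hcon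
    push Not at hcon
    have h4 := PE_mono n (F := fun l => (2 * a + 2) * (#(AA l) : ℝ) - Av d l)
      (G := fun _ => 3 / 4 * (2 * a + 2) * n - a * n - 1) (fun l _ => (hcon l).le)
    rw [PE_const] at h4
    have h5 : PE n (fun l => (2 * a + 2) * (#(AA l) : ℝ) - Av d l) =
        (2 * a + 2) * PE n (fun l => (#(AA l) : ℝ)) + (-1) * EX n d := by
      have e : (fun l => (2 * a + 2) * (#(AA l) : ℝ) - Av d l) =
          fun l => (2 * a + 2) * (#(AA l) : ℝ) + (-1) * Av d l := by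
        funext l; ring
      rw [e, PE_add', PE_mul, PE_mul]
      rfl
    rw [h5] at h4
    have h6 : (2 * a + 2) * (3 / 4 * (n : ℝ)) ≤ (2 * a + 2) * PE n (fun l => (#(AA l) : ℝ)) := by
      gcongr
    nlinarith
  obtain ⟨l, hl⟩ := h3
  have hav : Av d l = avgP (AA l) (fun S => d ⟨S, vl l⟩) := rfl
  have hav0 : 0 ≤ Av d l := avgP_nonneg _ _ fun R => hd.2.1 _
  refine ⟨AA l, vl l, ?_, ?_⟩
  · rw [hnk]
    have h7 : (2 * a + 2) * ((n : ℝ) / 4) ≤ (2 * a + 2) * #(AA l) := by nlinarith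
    exact le_of_mul_le_mul_left h7 (by linarith)
  · rw [← hav]
    nlinarith

theorem not_heat : ¬ Heat WG := by
  rintro ⟨d, hd, hH⟩
  obtain ⟨K, hK, hp⟩ := exists_path hd
  have hlog : 0 < Real.log 1.2 := Real.log_pos (by norm_num)
  obtain ⟨M, ⟨K', hK'⟩, hM, hCF⟩ := hH (Real.log 1.2 / K) (by positivity)
  obtain ⟨C, hC⟩ := uniform_bound M K' hK' hCF
  have hρ : (1.1 : ℝ) ≤ Real.sqrt 2 / 1.2 := by
    rw [le_div_iff₀ (by norm_num)]
    apply Real.le_sqrt_of_sq_le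
    norm_num
  obtain ⟨k, hk⟩ := pow_unbounded_of_one_lt (40 * (4 * |C|)) (one_lt_two : (1 : ℝ) < 2)
  obtain ⟨A, v, hA1, hA2⟩ := hp k
  have h1 := key_ineq M hM C hC A v
  have h2 := jensen A (fun S => d ⟨S, v⟩) (Real.log 1.2 / K)
  have h3 : ((1.2 : ℝ)⁻¹) ^ #A ≤
      Real.exp (-(Real.log 1.2 / K) * avgP A (fun S => d ⟨S, v⟩)) := by
    have e1 : ((1.2 : ℝ)⁻¹) ^ #A = Real.exp (-(Real.log 1.2 / K) * (K * #A)) := by
      have e2 : -(Real.log 1.2 / K) * (K * (#A : ℝ)) = (#A : ℝ) * Real.log (1.2 : ℝ)⁻¹ := by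
        rw [Real.log_inv]
        field_simp
      rw [e2, Real.exp_nat_mul, Real.exp_log (by norm_num)]
    rw [e1]
    apply Real.exp_le_exp.2
    have : Real.log 1.2 / K * avgP A (fun S => d ⟨S, v⟩) ≤ Real.log 1.2 / K * (K * #A) := by
      gcongr
    linarith
  have h4 : (Real.sqrt 2 / 1.2) ^ #A ≤ 4 * |C| := by
    calc (Real.sqrt 2 / 1.2) ^ #A = (Real.sqrt 2)⁻¹ ^ #A * (((1.2 : ℝ)⁻¹) ^ #A * 2 ^ #A) := by
          rw [← mul_pow, ← mul_pow]
          congr 1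
          have h5 : Real.sqrt 2 * Real.sqrt 2 = 2 := Real.mul_self_sqrt (by norm_num)
          have h6 : Real.sqrt 2 ≠ 0 := by positivity
          field_simp
          nlinarith
      _ ≤ (Real.sqrt 2)⁻¹ ^ #A *
          (Real.exp (-(Real.log 1.2 / K) * avgP A (fun S => d ⟨S, v⟩)) * 2 ^ #A) := by gcongr
      _ ≤ (Real.sqrt 2)⁻¹ ^ #A *
          ∑ R ∈ A.powerset, Real.exp (-(Real.log 1.2 / K) * d ⟨R, v⟩) := by gcongr
      _ ≤ 4 * |C| := h1
  have h5 : 1 + (#A : ℝ) * 0.1 ≤ (Real.sqrt 2 / 1.2) ^ #A := by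
    calc 1 + (#A : ℝ) * 0.1 ≤ (1 + 0.1 : ℝ) ^ #A := one_add_mul_le_pow (by norm_num) _
      _ ≤ (Real.sqrt 2 / 1.2) ^ #A := by
          gcongr
          linarith
  linarith

end Pool.Agent.X23.HP
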