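import Mathlib

/-!
# The heat property: definitions
-/

set_option autoImplicit false

open Complex
open scoped ComplexConjugate

namespace Pool.Agent.X23.HP

/-- The Hilbert space `ℓ²(Z)`. -/
abbrev Ell (Z : Type) : Type := lp (fun _ : Z => ℂ) 2

/-- The isometry `f ↦ f ∘ e` of `ℓ²(Z)` given by a bijection `e` of `Z`. -/
noncomputable def permIso {Z : Type} (e : Z ≃ Z) : Ell Z →ₗᵢ[ℂ] Ell Z where
  toFun := fun f => ⟨fun h => f (e h), by
    have h1 := (lp.memℓp f).summable (by norm_num)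
    refine memℓp_gen ?_
    exact (e.summable_iff (f := fun h => ‖f h‖ ^ (2 : ENNReal).toReal)).2 h1⟩
  map_add' := fun f g => by ext h; rfl
  map_smul' := fun c f => by ext h; rfl
  norm_map' := fun f => by
    have h1 : (0 : ℝ) < (2 : ENNReal).toReal := by norm_num
    rw [lp.norm_eq_tsum_rpow h1, lp.norm_eq_tsum_rpow h1]
    congr 1
    exact e.tsum_eq (fun h => ‖f h‖ ^ (2 : ENNReal).toReal)

variable {G : Type} [Group G]

/-- The left regular representation on `ℓ²(G)`: `(λ(g) ξ)(h) = ξ(g⁻¹ h)`. -/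
noncomputable def lam (g : G) : Ell G →L[ℂ] Ell G :=
  (permIso (Equiv.mulLeft g⁻¹)).toContinuousLinearMap

/-- The reduced group C*-algebra, the norm closure of the linear span of the `λ(g)`. -/
noncomputable def Cr (G : Type) [Group G] : Submodule ℂ (Ell G →L[ℂ] Ell G) :=
  (Submodule.span ℂ (Set.range (lam : G → Ell G →L[ℂ] Ell G))).topologicalClosure

/-- The basis vector `δ_g` -/
noncomputable def dlt (g : G) : Ell G :=
  haveI := Classical.decEq G
  lp.single 2 g (1 : ℂ)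

/-- The Fourier coefficients `⟨x δ_e, δ_g⟩ = (x δ_e)(g)`. -/
noncomputable def coef (x : Ell G →L[ℂ] Ell G) (g : G) : ℂ := (x (dlt 1)) g

/-- The elements of `C_r^*(G)` whose Fourier series converges unconditionally in norm. -/
def CF (G : Type) [Group G] : Set (Ell G →L[ℂ] Ell G) :=
  {x | x ∈ Cr G ∧ Summable fun g : G => coef x g • lam g}

/-- negative definite functions `d ≥ 0` with `d(e) = 0` -/
def NegDef (d : G → ℝ) : Prop :=
  d 1 = 0 ∧ (∀ g, 0 ≤ d g) ∧ (∀ g, d g⁻¹ = d g) ∧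
    ∀ (n : ℕ) (g : Fin n → G) (b : Fin n → ℂ), ∑ i, b i = 0 →
      (∑ i, ∑ j, conj (b i) * b j * (d ((g i)⁻¹ * g j) : ℂ)).re ≤ 0

/-- the Haagerup property -/
def Haagerup (G : Type) [Group G] : Prop :=
  ∃ d : G → ℝ, NegDef d ∧ ∀ s : ℝ, {g | d g ≤ s}.Finite

/-- the heat property with respect to `d` -/
def HeatWrt (d : G → ℝ) : Prop :=
  ∀ t : ℝ, 0 < t → ∃ M : Cr G →ₗ[ℂ] Cr G,
    (∃ K : ℝ, ∀ x : Cr G, ‖(M x : Ell G →L[ℂ] Ell G)‖ ≤ K * ‖(x : Ell G →L[ℂ] Ell G)‖) ∧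
    (∀ (x : Cr G) (g : G), (x : Ell G →L[ℂ] Ell G) = lam g →
      (M x : Ell G →L[ℂ] Ell G) = (Real.exp (-t * d g) : ℂ) • lam g) ∧
    ∀ x : Cr G, (M x : Ell G →L[ℂ] Ell G) ∈ CF G

/-- the heat property -/
def Heat (G : Type) [Group G] : Prop := ∃ d : G → ℝ, NegDef d ∧ HeatWrt d

theorem lam_apply (g : G) (ξ : Ell G) (h : G) : lam g ξ h = ξ (g⁻¹ * h) := rfl

theorem norm_lam_apply (g : G) (ξ : Ell G) : ‖lam g ξ‖ = ‖ξ‖ := (permIso _).norm_map ξ

theorem lam_mul (g h : G) : lam (g * h) = (lam g).comp (lam h) := by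
  ext ξ k
  rw [ContinuousLinearMap.comp_apply, lam_apply, lam_apply, lam_apply, mul_inv_rev, mul_assoc]

theorem lam_one : lam (1 : G) = ContinuousLinearMap.id ℂ (Ell G) := by
  ext ξ k
  rw [lam_apply, inv_one, one_mul]
  rfl

theorem dlt_apply_self (g : G) : dlt g g = 1 := by
  letI := Classical.decEq G
  exact lp.single_apply_self (E := fun _ : G => ℂ) 2 g (1 : ℂ)

theorem dlt_apply_ne {g h : G} (hgh : h ≠ g) : dlt g h = 0 := by
  letI := Classical.decEq G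
  exact lp.single_apply_ne (E := fun _ : G => ℂ) 2 g (1 : ℂ) hgh

theorem lam_dlt (g h : G) : lam g (dlt h) = dlt (g * h) := by
  ext k
  rw [lam_apply]
  by_cases hk : k = g * h
  · subst hk
    rw [inv_mul_cancel_left, dlt_apply_self, dlt_apply_self]
  · rw [dlt_apply_ne hk, dlt_apply_ne]
    intro h1
    apply hk
    rw [← h1, mul_inv_cancel_left]

theorem coef_lam_self (g : G) : coef (lam g) g = 1 := by
  unfold coef
  rw [lam_dlt, mul_one, dlt_apply_self]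

theorem coef_lam_ne {g h : G} (hgh : h ≠ g) : coef (lam g) h = 0 := by
  unfold coef
  rw [lam_dlt, mul_one, dlt_apply_ne hgh]

theorem lam_mem (g : G) : (lam g : Ell G →L[ℂ] Ell G) ∈ Cr G :=
  Submodule.le_topologicalClosure _ (Submodule.subset_span ⟨g, rfl⟩)

/-- the coefficient as a linear functional -/
noncomputable def coefL (g : G) : (Ell G →L[ℂ] Ell G) →ₗ[ℂ] ℂ where
  toFun := fun x => coef x g
  map_add' := fun x y => rfl
  map_smul' := fun c x => rfl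

theorem coefL_bound (g : G) (x : Ell G →L[ℂ] Ell G) :
    ‖coefL g x‖ ≤ ‖dlt (1 : G)‖ * ‖x‖ := by
  change ‖(x (dlt 1)) g‖ ≤ _
  refine (lp.norm_apply_le_norm (by norm_num) (x (dlt 1)) g).trans ?_
  rw [mul_comm]
  exact x.le_opNorm _

theorem coefL_apply (g : G) (x : Ell G →L[ℂ] Ell G) : coefL g x = coef x g := rfl

/-- Partial sums of a summable family are bounded. -/
theorem bdd_of_summable {ι E : Type*} [NormedAddCommGroup E] [CompleteSpace E] {f : ι → E}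
    (hf : Summable f) : ∃ C, ∀ S : Finset ι, ‖∑ i ∈ S, f i‖ ≤ C := by
  classical
  obtain ⟨s, hs⟩ := (summable_iff_vanishing_norm).1 hf 1 one_pos
  refine ⟨∑ i ∈ s, ‖f i‖ + 1, fun S => ?_⟩
  have h1 : ∑ i ∈ S, f i = ∑ i ∈ S ∩ s, f i + ∑ i ∈ S \ s, f i := by
    rw [Finset.sum_inter_add_sum_sdiff]
  rw [h1]
  refine (norm_add_le _ _).trans (add_le_add ?_ ?_)
  · refine (norm_sum_le _ _).trans ?_
    exact Finset.sum_le_sum_of_subset_of_nonneg Finset.inter_subset_right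
      (fun i _ _ => norm_nonneg _)
  · exact (hs _ (Finset.sdiff_disjoint)).le

/-- The uniform bound, abstract form. -/
theorem ub_abs {B : Type*} [NormedAddCommGroup B] [NormedSpace ℂ B] [CompleteSpace B]
    (W : Submodule ℂ B) (hW : IsClosed (W : Set B)) (M : W →ₗ[ℂ] W) (K : ℝ)
    (hK : ∀ x : W, ‖(M x : B)‖ ≤ K * ‖(x : B)‖) {ι : Type*} (φ : ι → B →ₗ[ℂ] ℂ) (K' : ι → ℝ)
    (hφ : ∀ i x, ‖φ i x‖ ≤ K' i * ‖x‖) (u : ι → B)
    (h : ∀ x : W, Summable fun i => φ i (M x : B) • u i) :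
    ∃ C, ∀ (S : Finset ι) (x : W), ‖∑ i ∈ S, φ i (M x : B) • u i‖ ≤ C * ‖(x : B)‖ := by
  haveI : CompleteSpace W := hW.completeSpace_coe
  set M' : W →L[ℂ] W := M.mkContinuous K hK with hM'
  set φ' : ι → B →L[ℂ] ℂ := fun i => (φ i).mkContinuous (K' i) (hφ i) with hφ'
  set T : Finset ι → (W →L[ℂ] B) := fun S =>
    ∑ i ∈ S, ((φ' i).comp (W.subtypeL.comp M')).smulRight (u i) with hT
  have hTa : ∀ S x, T S x = ∑ i ∈ S, φ i (M x : B) • u i := by
    intro S x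
    simp only [hT, ContinuousLinearMap.sum_apply, ContinuousLinearMap.smulRight_apply,
      ContinuousLinearMap.comp_apply]
    rfl
  have hpt : ∀ x, ∃ C, ∀ S, ‖T S x‖ ≤ C := by
    intro x
    obtain ⟨C, hC⟩ := bdd_of_summable (h x)
    exact ⟨C, fun S => by rw [hTa]; exact hC S⟩
  obtain ⟨C, hC⟩ := banach_steinhaus hpt
  refine ⟨C, fun S x => ?_⟩
  rw [← hTa]
  exact (T S).le_of_opNorm_le (hC S) x

/-- The uniform bound. -/
theorem uniform_bound (M : Cr G →ₗ[ℂ] Cr G) (K : ℝ)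
    (hK : ∀ x : Cr G, ‖(M x : Ell G →L[ℂ] Ell G)‖ ≤ K * ‖(x : Ell G →L[ℂ] Ell G)‖)
    (hCF : ∀ x : Cr G, (M x : Ell G →L[ℂ] Ell G) ∈ CF G) :
    ∃ C, ∀ (S : Finset G) (x : Cr G),
      ‖∑ g ∈ S, coef (M x : Ell G →L[ℂ] Ell G) g • lam g‖ ≤ C * ‖(x : Ell G →L[ℂ] Ell G)‖ :=
  ub_abs (Cr G) (Submodule.isClosed_topologicalClosure _) M K hK (fun g => coefL g)
    (fun _ => ‖dlt (1 : G)‖) (fun g x => coefL_bound g x) (fun g => lam g) (fun x => (hCF x).2)

end Pool.Agent.X23.HP
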