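import Pool.Agent.X23.HP.Walk
import Pool.Agent.X23.HP.Defs

/-!
# The doubling inequality for negative definite functions
-/

set_option autoImplicit false

open Finset Complex
open scoped symmDiff ComplexConjugate

namespace Pool.Agent.X23.HP

theorem negDef_real {G : Type} [Group G] {d : G → ℝ} (hd : NegDef d) (s : Finset G) (b : G → ℝ)
    (hb : ∑ g ∈ s, b g = 0) : ∑ g ∈ s, ∑ h ∈ s, b g * b h * d (g⁻¹ * h) ≤ 0 := by
  have h1 := hd.2.2.2 (#s) (fun i => (s.equivFin.symm i : G)) (fun i => (b (s.equivFin.symm i) : ℂ))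
    (by
      have : ∑ i : Fin #s, b (s.equivFin.symm i) = 0 := by
        rw [Equiv.sum_comp s.equivFin.symm (fun x : s => b x), Finset.sum_coe_sort s b, hb]
      exact_mod_cast congrArg (fun x : ℝ => (x : ℂ)) this)
  have h2 : (∑ i : Fin #s, ∑ j : Fin #s, conj (b (s.equivFin.symm i) : ℂ) *
      (b (s.equivFin.symm j) : ℂ) * (d ((s.equivFin.symm i : G)⁻¹ * (s.equivFin.symm j : G)) : ℂ)) =
      ((∑ g ∈ s, ∑ h ∈ s, b g * b h * d (g⁻¹ * h) : ℝ) : ℂ) := by
    rw [← Finset.sum_coe_sort s, ← Equiv.sum_comp s.equivFin.symm]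
    push_cast
    refine Finset.sum_congr rfl fun i _ => ?_
    rw [← Finset.sum_coe_sort s, ← Equiv.sum_comp s.equivFin.symm]
    refine Finset.sum_congr rfl fun j _ => ?_
    rw [conj_ofReal]
  rw [h2, ofReal_re] at h1
  exact h1

/-- averages -/
def IsAvg (E : (WG → ℝ) → ℝ) : Prop :=
  ∃ w : WG →₀ ℝ, (∀ g, 0 ≤ w g) ∧ Finsupp.linearCombination ℝ (fun _ : WG => (1 : ℝ)) w = 1 ∧
    ∀ f, E f = Finsupp.linearCombination ℝ f w

theorem isAvg_mix {ι : Type*} (s : Finset ι) (c : ℝ) (hc : 0 ≤ c) (hcs : c * #s = 1)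
    (E : ι → (WG → ℝ) → ℝ) (hE : ∀ i ∈ s, IsAvg (E i)) :
    IsAvg (fun f => c * ∑ i ∈ s, E i f) := by
  have h1 : ∀ i, ∃ w : WG →₀ ℝ, i ∈ s → ((∀ g, 0 ≤ w g) ∧
      Finsupp.linearCombination ℝ (fun _ : WG => (1 : ℝ)) w = 1 ∧
      ∀ f, E i f = Finsupp.linearCombination ℝ f w) := by
    intro i
    by_cases hi : i ∈ s
    · obtain ⟨w, hw⟩ := hE i hi
      exact ⟨w, fun _ => hw⟩
    · exact ⟨0, fun h => absurd h hi⟩
  choose w hw using h1
  refine ⟨c • ∑ i ∈ s, w i, ?_, ?_, ?_⟩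
  · intro g
    rw [Finsupp.smul_apply, Finsupp.finsetSum_apply, smul_eq_mul]
    exact mul_nonneg hc (Finset.sum_nonneg fun i hi => (hw i hi).1 g)
  · rw [map_smul, map_sum, Finset.sum_congr rfl fun i hi => (hw i hi).2.1, Finset.sum_const,
      smul_eq_mul, nsmul_eq_mul, mul_one]
    exact hcs
  · intro f
    rw [map_smul, map_sum, smul_eq_mul]
    change c * ∑ i ∈ s, E i f = _
    congr 1
    exact Finset.sum_congr rfl fun i hi => (hw i hi).2.2 f

theorem isAvg_dirac (g : WG) : IsAvg (fun f => f g) :=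
  ⟨Finsupp.single g 1, fun h => by
    rw [Finsupp.single_apply]; split_ifs <;> norm_num, by simp, fun f => by simp⟩

theorem isAvg_Av (l : List TT) : IsAvg (fun f => Av f l) := by
  have h := isAvg_mix (AA l).powerset ((2 : ℝ) ^ #(AA l))⁻¹ (by positivity)
    (by
      rw [card_powerset]
      push_cast
      rw [inv_mul_cancel₀ (by positivity)])
    (fun S f => f ⟨S, vl l⟩) (fun S _ => isAvg_dirac _)
  have e : (fun f : WG → ℝ => Av f l) =
      fun f => ((2 : ℝ) ^ #(AA l))⁻¹ * ∑ S ∈ (AA l).powerset, f ⟨S, vl l⟩ := by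
    funext f
    unfold Av avgP
    rw [div_eq_inv_mul]
  rw [e]
  exact h

theorem isAvg_PE (n : ℕ) (E : List TT → (WG → ℝ) → ℝ) (hE : ∀ l, IsAvg (E l)) :
    IsAvg (fun f => PE n (fun l => E l f)) := by
  induction n generalizing E with
  | zero => exact hE []
  | succ n ih =>
    have h := isAvg_mix (univ : Finset TT) (1 / 16) (by norm_num)
      (by rw [Finset.card_univ, card_TT]; norm_num)
      (fun τ f => PE n (fun l => E (τ :: l) f)) (fun τ _ => ih _ fun l => hE _)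
    exact h

theorem isAvg_EX (n : ℕ) : IsAvg (EX n) := isAvg_PE n (fun l f => Av f l) isAvg_Av

/-- The doubling inequality -/
theorem doubling {E : (WG → ℝ) → ℝ} (hE : IsAvg E) {d : WG → ℝ} (hd : NegDef d) :
    E (fun g => E (fun h => d (g⁻¹ * h))) ≤ 2 * E d := by
  obtain ⟨w, hw0, hw1, hwf⟩ := hE
  simp only [hwf]
  rw [Finsupp.linearCombination_apply, Finsupp.sum] at hw1
  simp only [smul_eq_mul, mul_one] at hw1
  simp only [Finsupp.linearCombination_apply, Finsupp.sum, smul_eq_mul]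
  set s : Finset WG := insert 1 w.support with hs
  set b : WG → ℝ := fun g => w g - if g = 1 then 1 else 0 with hb
  have hsub : w.support ⊆ s := subset_insert _ _
  have hext : ∀ f : WG → ℝ, ∑ g ∈ w.support, w g * f g = ∑ g ∈ s, w g * f g := by
    intro f
    apply Finset.sum_subset hsub
    intro g _ hg
    rw [Finsupp.notMem_support_iff.1 hg, zero_mul]
  have h1s : (1 : WG) ∈ s := mem_insert_self _ _
  have hδ : ∀ f : WG → ℝ, ∑ g ∈ s, (if g = 1 then (1 : ℝ) else 0) * f g = f 1 := by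
    intro f
    rw [Finset.sum_eq_single 1]
    · rw [if_pos rfl, one_mul]
    · intro g _ hg
      rw [if_neg hg, zero_mul]
    · intro h
      exact absurd h1s h
  have hws : ∑ g ∈ s, w g = 1 := by
    have := hext (fun _ => 1)
    simp only [mul_one] at this
    rw [← this, hw1]
  have hbs : ∑ g ∈ s, b g = 0 := by
    have := hδ (fun _ => 1)
    simp only [mul_one] at this
    rw [hb, Finset.sum_sub_distrib, hws, this, sub_self]
  have h2 := negDef_real hd s b hbs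
  have h3 : ∑ g ∈ s, ∑ h ∈ s, b g * b h * d (g⁻¹ * h) =
      ∑ g ∈ s, w g * ∑ h ∈ s, w h * d (g⁻¹ * h) - ∑ g ∈ s, w g * d g⁻¹ -
      ∑ h ∈ s, w h * d h + d 1 := by
    have e1 : ∀ g, ∑ h ∈ s, b g * b h * d (g⁻¹ * h) =
        b g * (∑ h ∈ s, w h * d (g⁻¹ * h) - d g⁻¹) := by
      intro g
      have e2 : ∀ h, b g * b h * d (g⁻¹ * h) = b g * (w h * d (g⁻¹ * h)) -
          b g * ((if h = 1 then (1 : ℝ) else 0) * d (g⁻¹ * h)) := by
        intro h
        rw [hb]
        ring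
      simp only [e2]
      rw [Finset.sum_sub_distrib, ← Finset.mul_sum, ← Finset.mul_sum,
        hδ (fun h => d (g⁻¹ * h)), mul_one, mul_sub]
    simp only [e1]
    have e3 : ∀ g, b g * (∑ h ∈ s, w h * d (g⁻¹ * h) - d g⁻¹) =
        w g * ∑ h ∈ s, w h * d (g⁻¹ * h) - w g * d g⁻¹ -
        (if g = 1 then (1 : ℝ) else 0) * (∑ h ∈ s, w h * d (g⁻¹ * h) - d g⁻¹) := by
      intro g
      rw [hb]
      ring
    simp only [e3]
    rw [Finset.sum_sub_distrib, Finset.sum_sub_distrib,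
      hδ (fun g => ∑ h ∈ s, w h * d (g⁻¹ * h) - d g⁻¹)]
    simp only [inv_one, one_mul]
    ring
  rw [h3] at h2
  have h4 : ∑ g ∈ s, w g * d g⁻¹ = ∑ g ∈ s, w g * d g :=
    Finset.sum_congr rfl fun g _ => by rw [hd.2.2.1]
  rw [h4, hd.1] at h2
  rw [hext d]
  simp only [hext (fun h => d (_ * h))]
  rw [hext (fun g => ∑ h ∈ s, w h * d (g⁻¹ * h))]
  linarith

theorem EX_double (n : ℕ) {d : WG → ℝ} (hd : NegDef d) : EX (n + n) d ≤ 2 * EX n d := by
  have h1 : EX (n + n) d = EX n (fun g => EX n (fun h => d (g⁻¹ * h))) := by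
    rw [EX_add]
    exact (EX_inv n (fun g => EX n (fun h => d (g * h)))).symm
  rw [h1]
  exact doubling (isAvg_EX n) hd

theorem EX_pow (k : ℕ) {d : WG → ℝ} (hd : NegDef d) : EX (2 ^ k) d ≤ 2 ^ k * EX 1 d := by
  induction k with
  | zero => simp
  | succ k ih =>
    have h1 := EX_double (2 ^ k) hd
    rw [show 2 ^ (k + 1) = 2 ^ k + 2 ^ k by ring]
    calc EX (2 ^ k + 2 ^ k) d ≤ 2 * EX (2 ^ k) d := h1
      _ ≤ 2 * (2 ^ k * EX 1 d) := by linarith
      _ = (2 : ℝ) ^ (k + 1) * EX 1 d := by ring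

end Pool.Agent.X23.HP
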