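import Pool.Agent.X23.HP.Wreath
import Pool.Agent.X23.HP.Defs

/-!
# The lamplighter group over `ℤ⁴` is amenable and has the Haagerup property
-/

set_option autoImplicit false

open Finset Complex Filter Topology
open scoped symmDiff ComplexConjugate

namespace Pool.Agent.X23.HP

section general

variable {G : Type} [Group G] [DecidableEq G]

/-- the proportion of the `x ∈ F` with `x g ∈ F` -/
noncomputable def ph (F : Finset G) (g : G) : ℝ := (#{x ∈ F | x * g ∈ F} : ℝ) / #F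

theorem ph_nonneg (F : Finset G) (g : G) : 0 ≤ ph F g := by unfold ph; positivity

theorem ph_le_one (F : Finset G) (g : G) : ph F g ≤ 1 := by
  unfold ph
  apply div_le_one_of_le₀
  · exact_mod_cast card_filter_le _ _
  · positivity

theorem ph_one (F : Finset G) (hF : F.Nonempty) : ph F 1 = 1 := by
  unfold ph
  have : {x ∈ F | x * 1 ∈ F} = F := by
    ext x
    simp
  rw [this, div_self]
  exact_mod_cast (card_pos.2 hF).ne'

theorem ph_inv (F : Finset G) (g : G) : ph F g⁻¹ = ph F g := by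
  unfold ph
  congr 2
  apply Finset.card_bij' (fun x _ => x * g⁻¹) (fun x _ => x * g)
  · intro x hx
    rw [mem_filter] at hx ⊢
    exact ⟨hx.2, by rw [inv_mul_cancel_right]; exact hx.1⟩
  · intro x hx
    rw [mem_filter] at hx ⊢
    exact ⟨hx.2, by rw [mul_inv_cancel_right]; exact hx.1⟩
  · intro x _
    rw [inv_mul_cancel_right]
  · intro x _
    rw [mul_inv_cancel_right]

/-- positive definiteness -/
theorem ph_pos (F : Finset G) (n : ℕ) (g : Fin n → G) (b : Fin n → ℂ) :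
    0 ≤ ∑ i, ∑ j, (conj (b i) * b j).re * ph F ((g i)⁻¹ * g j) := by
  classical
  set Y : Finset G := univ.biUnion (fun i => F.image (fun x => x * (g i)⁻¹)) with hY
  have h1 : ∀ i j, (#{x ∈ F | x * ((g i)⁻¹ * g j) ∈ F} : ℝ) =
      ∑ y ∈ Y, (if y * g i ∈ F then (1 : ℝ) else 0) * (if y * g j ∈ F then (1 : ℝ) else 0) := by
    intro i j
    have e1 : ∀ y, (if y * g i ∈ F then (1 : ℝ) else 0) * (if y * g j ∈ F then (1 : ℝ) else 0) =
        if (y * g i ∈ F ∧ y * g j ∈ F) then 1 else 0 := by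
      intro y
      split_ifs <;> simp_all
    simp only [e1]
    rw [Finset.sum_boole]
    congr 1
    apply Finset.card_bij' (fun x _ => x * (g i)⁻¹) (fun y _ => y * g i)
    · intro x hx
      rw [mem_filter] at hx ⊢
      refine ⟨?_, ?_, ?_⟩
      · rw [hY, mem_biUnion]
        exact ⟨i, mem_univ _, mem_image.2 ⟨x, hx.1, rfl⟩⟩
      · rw [inv_mul_cancel_right]; exact hx.1
      · rw [mul_assoc]; exact hx.2
    · intro y hy
      rw [mem_filter] at hy ⊢
      refine ⟨hy.2.1, ?_⟩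
      rw [mul_assoc, mul_inv_cancel_left]
      exact hy.2.2
    · intro x _
      rw [inv_mul_cancel_right]
    · intro x _
      rw [mul_inv_cancel_right]
  have h2 : ∑ i, ∑ j, (conj (b i) * b j).re * ph F ((g i)⁻¹ * g j) =
      (∑ y ∈ Y, ‖∑ i, (if y * g i ∈ F then (1 : ℂ) else 0) * b i‖ ^ 2) / #F := by
    have e1 : ∀ y, ‖∑ i, (if y * g i ∈ F then (1 : ℂ) else 0) * b i‖ ^ 2 =
        ∑ i, ∑ j, (conj (b i) * b j).re * ((if y * g i ∈ F then (1 : ℝ) else 0) *
          (if y * g j ∈ F then (1 : ℝ) else 0)) := by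
      intro y
      have e2 : ((‖∑ i, (if y * g i ∈ F then (1 : ℂ) else 0) * b i‖ ^ 2 : ℝ) : ℂ) =
          conj (∑ i, (if y * g i ∈ F then (1 : ℂ) else 0) * b i) *
            ∑ i, (if y * g i ∈ F then (1 : ℂ) else 0) * b i := by
        rw [← normSq_eq_conj_mul_self, normSq_eq_norm_sq]
      have e3 := congrArg Complex.re e2
      rw [ofReal_re] at e3
      rw [e3, map_sum, Finset.sum_mul, re_sum]
      refine Finset.sum_congr rfl fun i _ => ?_
      rw [Finset.mul_sum, re_sum]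
      refine Finset.sum_congr rfl fun j _ => ?_
      split_ifs <;> simp
    simp only [e1]
    have e4 : ∑ y ∈ Y, ∑ i, ∑ j, (conj (b i) * b j).re * ((if y * g i ∈ F then (1 : ℝ) else 0) *
          (if y * g j ∈ F then (1 : ℝ) else 0)) = ∑ i, ∑ j, (conj (b i) * b j).re *
          ∑ y ∈ Y, ((if y * g i ∈ F then (1 : ℝ) else 0) *
          (if y * g j ∈ F then (1 : ℝ) else 0)) := by
      rw [Finset.sum_comm]
      refine Finset.sum_congr rfl fun i _ => ?_
      rw [Finset.sum_comm]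
      refine Finset.sum_congr rfl fun j _ => ?_
      rw [Finset.mul_sum]
    rw [e4, Finset.sum_div]
    refine Finset.sum_congr rfl fun i _ => ?_
    rw [Finset.sum_div]
    refine Finset.sum_congr rfl fun j _ => ?_
    rw [← h1]
    unfold ph
    ring
  rw [h2]
  positivity

/-- The negative definite function of a sequence of Følner sets. -/
theorem negDef_of_folner (F : ℕ → Finset G) (hF : ∀ k, (F k).Nonempty)
    (hs : ∀ g, Summable fun k => 1 - ph (F k) g) :
    NegDef (fun g => ∑' k, (1 - ph (F k) g)) := by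
  refine ⟨?_, ?_, ?_, ?_⟩
  · simp [ph_one _ (hF _)]
  · intro g
    exact tsum_nonneg fun k => sub_nonneg.2 (ph_le_one _ _)
  · intro g
    simp only [ph_inv]
  · intro n g b hb
    have h1 : (∑ i, ∑ j, conj (b i) * b j *
        ((∑' k, (1 - ph (F k) ((g i)⁻¹ * g j)) : ℝ) : ℂ)).re =
        ∑' k, ∑ i, ∑ j, (conj (b i) * b j).re * (1 - ph (F k) ((g i)⁻¹ * g j)) := by
      rw [re_sum, Summable.tsum_finsetSum]
      · refine Finset.sum_congr rfl fun i _ => ?_
        rw [re_sum, Summable.tsum_finsetSum]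
        · refine Finset.sum_congr rfl fun j _ => ?_
          rw [re_mul_ofReal, tsum_mul_left]
        · intro j _
          exact (hs _).mul_left _
      · intro i _
        exact summable_sum fun j _ => (hs _).mul_left _
    rw [h1]
    apply tsum_nonpos
    intro k
    have h2 : ∑ i, ∑ j, (conj (b i) * b j).re = 0 := by
      have e1 : (∑ i, ∑ j, (conj (b i) * b j)) = 0 := by
        have : (∑ i, ∑ j, (conj (b i) * b j)) = conj (∑ i, b i) * ∑ j, b j := by
          rw [map_sum, Finset.sum_mul_sum]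
        rw [this, hb, mul_zero]
      have e2 := congrArg Complex.re e1
      simpa [re_sum] using e2
    have h3 : ∑ i, ∑ j, (conj (b i) * b j).re * (1 - ph (F k) ((g i)⁻¹ * g j)) =
        ∑ i, ∑ j, (conj (b i) * b j).re -
          ∑ i, ∑ j, (conj (b i) * b j).re * ph (F k) ((g i)⁻¹ * g j) := by
      rw [← Finset.sum_sub_distrib]
      refine Finset.sum_congr rfl fun i _ => ?_
      rw [← Finset.sum_sub_distrib]
      refine Finset.sum_congr rfl fun j _ => ?_
      ring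
    rw [h3, h2]
    have := ph_pos (F k) n g b
    linarith

theorem haagerup_of_folner (F : ℕ → Finset G) (hF : ∀ k, (F k).Nonempty) (hm : Monotone F)
    (hs : ∀ g, Summable fun k => 1 - ph (F k) g) : Haagerup G := by
  refine ⟨_, negDef_of_folner F hF hs, fun s => ?_⟩
  obtain ⟨K, hK⟩ := exists_nat_gt s
  apply Set.Finite.subset (s := (((F K) ×ˢ (F K)).image (fun p => p.1⁻¹ * p.2) : Finset G))
    (Finset.finite_toSet _)
  intro g hg
  rw [mem_coe, mem_image]
  by_contra hcon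
  push Not at hcon
  have h1 : ∀ k ∈ range K, 1 - ph (F k) g = 1 := by
    intro k hk
    have hkK : F k ⊆ F K := hm (mem_range.1 hk).le
    have : ph (F k) g = 0 := by
      unfold ph
      have e : {x ∈ F k | x * g ∈ F k} = ∅ := by
        rw [filter_eq_empty_iff]
        intro x hx hxg
        exact hcon (x, x * g) (mem_product.2 ⟨hkK hx, hkK hxg⟩) (by simp)
      rw [e]
      simp
    rw [this, sub_zero]
  have h2 := (hs g).sum_le_tsum (range K) (fun k _ => sub_nonneg.2 (ph_le_one _ _))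
  rw [Finset.sum_congr rfl h1] at h2
  simp only [Finset.sum_const, card_range, nsmul_eq_mul, mul_one] at h2
  have h3 : ∑' k, (1 - ph (F k) g) ≤ s := hg
  linarith

end general

/-- the cube in `ℤ⁴` -/
noncomputable def Bn (n : ℤ) : Finset V4 := Fintype.piFinset fun _ => Icc (-n) n

theorem mem_Bn {n : ℤ} {x : V4} : x ∈ Bn n ↔ ∀ i, |x i| ≤ n := by
  unfold Bn
  simp only [Fintype.mem_piFinset, mem_Icc, abs_le]

/-- the Følner sets -/
noncomputable def Fo (n : ℤ) : Finset WG :=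
  ((Bn n).powerset ×ˢ (Bn n)).map ⟨fun p => ⟨p.1, p.2⟩, fun p q h => by
    have h1 := congrArg WG.lamp h
    have h2 := congrArg WG.pos h
    exact Prod.ext h1 h2⟩

theorem mem_Fo {n : ℤ} {x : WG} : x ∈ Fo n ↔ x.lamp ⊆ Bn n ∧ x.pos ∈ Bn n := by
  unfold Fo
  rw [Finset.mem_map]
  constructor
  · rintro ⟨p, hp, rfl⟩
    rw [mem_product, mem_powerset] at hp
    exact hp
  · rintro ⟨h1, h2⟩
    exact ⟨(x.lamp, x.pos), mem_product.2 ⟨mem_powerset.2 h1, h2⟩, rfl⟩

theorem card_Fo (n : ℤ) : #(Fo n) = 2 ^ #(Bn n) * #(Bn n) := by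
  unfold Fo
  rw [card_map, card_product, card_powerset]

theorem card_Bn (n : ℕ) : #(Bn n) = (2 * n + 1) ^ 4 := by
  unfold Bn
  rw [Fintype.card_piFinset]
  simp only [Int.card_Icc, Finset.prod_const, card_univ, Fintype.card_fin]
  congr 1
  omega

theorem Bn_mono {a b : ℤ} (h : a ≤ b) : Bn a ⊆ Bn b := by
  intro x hx
  rw [mem_Bn] at hx ⊢
  exact fun i => (hx i).trans h

/-- The Følner estimate. -/
theorem one_sub_ph_le (g : WG) : ∃ R : ℕ, ∀ n : ℕ, 1 ≤ n → 1 - ph (Fo n) g ≤ R / n := by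
  obtain ⟨R0, hR0⟩ : ∃ R : ℕ, (∀ i, |g.pos i| ≤ R) ∧ ∀ x ∈ g.lamp, ∀ i, |x i| ≤ (R : ℤ) := by
    refine ⟨∑ i, (g.pos i).natAbs + ∑ x ∈ g.lamp, ∑ i, (x i).natAbs, ?_, ?_⟩
    · intro i
      have h1 : (g.pos i).natAbs ≤ ∑ i, (g.pos i).natAbs :=
        Finset.single_le_sum (f := fun i => (g.pos i).natAbs) (fun _ _ => Nat.zero_le _)
          (mem_univ i)
      rw [Int.abs_eq_natAbs]
      exact_mod_cast h1.trans (Nat.le_add_right _ _)
    · intro x hx i
      have h1 : (x i).natAbs ≤ ∑ i, (x i).natAbs :=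
        Finset.single_le_sum (f := fun i => (x i).natAbs) (fun _ _ => Nat.zero_le _) (mem_univ i)
      have h2 : ∑ i, (x i).natAbs ≤ ∑ x ∈ g.lamp, ∑ i, (x i).natAbs :=
        Finset.single_le_sum (f := fun x : V4 => ∑ i, (x i).natAbs) (fun _ _ => Nat.zero_le _) hx
      rw [Int.abs_eq_natAbs]
      exact_mod_cast (h1.trans h2).trans (Nat.le_add_left _ _)
  refine ⟨4 * R0, fun n hn => ?_⟩
  have hn0 : (0 : ℝ) < n := by exact_mod_cast hn
  by_cases hnR : n ≤ R0
  · have h1 := ph_nonneg (Fo n) g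
    have h2 : (1 : ℝ) ≤ ((4 * R0 : ℕ) : ℝ) / n := by
      rw [le_div_iff₀ hn0, one_mul]
      have : n ≤ 4 * R0 := by omega
      exact_mod_cast this
    linarith
  · push Not at hnR
    obtain ⟨m, rfl⟩ := Nat.exists_eq_add_of_le hnR.le
    have hsub : ((Bn ((R0 + m : ℕ) : ℤ)).powerset ×ˢ (Bn (m : ℤ))).map
        ⟨fun p => (⟨p.1, p.2⟩ : WG), fun p q h => by
          have h1 := congrArg WG.lamp h
          have h2 := congrArg WG.pos h
          exact Prod.ext h1 h2⟩ ⊆ {x ∈ Fo ((R0 + m : ℕ) : ℤ) | x * g ∈ Fo ((R0 + m : ℕ) : ℤ)} := by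
      intro x hx
      rw [Finset.mem_map] at hx
      obtain ⟨p, hp, rfl⟩ := hx
      rw [mem_product, mem_powerset] at hp
      have hp2 := mem_Bn.1 hp.2
      rw [mem_filter, mem_Fo, mem_Fo]
      refine ⟨⟨hp.1, ?_⟩, ?_, ?_⟩
      · exact Bn_mono (by push_cast; omega) hp.2
      · intro y hy
        change y ∈ p.1 ∆ sh p.2 g.lamp at hy
        rw [Finset.mem_symmDiff] at hy
        rcases hy with ⟨hy, _⟩ | ⟨hy, _⟩
        · exact hp.1 hy
        · rw [mem_sh] at hy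
          rw [mem_Bn]
          intro i
          have h3 := hR0.2 _ hy i
          have h4 := hp2 i
          have h5 : y i = p.2 i + (-p.2 + y) i := by simp
          rw [h5]
          refine (abs_add_le _ _).trans ?_
          push_cast
          linarith
      · change p.2 + g.pos ∈ _
        rw [mem_Bn]
        intro i
        rw [Pi.add_apply]
        refine (abs_add_le _ _).trans ?_
        have h3 := hR0.1 i
        have h4 := hp2 i
        push_cast
        linarith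
    have h1 := card_le_card hsub
    rw [card_map, card_product, card_powerset] at h1
    have h2 : ((#(Bn (m : ℤ)) : ℝ)) / #(Bn ((R0 + m : ℕ) : ℤ)) ≤ ph (Fo ((R0 + m : ℕ) : ℤ)) g := by
      unfold ph
      rw [card_Fo]
      have hB : (0 : ℝ) < #(Bn ((R0 + m : ℕ) : ℤ)) := by
        rw [card_Bn]
        positivity
      have hB' : (0 : ℝ) < ((2 ^ #(Bn ((R0 + m : ℕ) : ℤ)) * #(Bn ((R0 + m : ℕ) : ℤ)) : ℕ) : ℝ) := by
        push_cast at hB ⊢
        positivity
      rw [div_le_div_iff₀ hB hB']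
      have h3 : ((2 ^ #(Bn ((R0 + m : ℕ) : ℤ)) * #(Bn (m : ℤ)) : ℕ) : ℝ) ≤
          #{x ∈ Fo ((R0 + m : ℕ) : ℤ) | x * g ∈ Fo ((R0 + m : ℕ) : ℤ)} := by exact_mod_cast h1
      push_cast at h3 ⊢
      calc (#(Bn (m : ℤ)) : ℝ) * (2 ^ #(Bn ((R0 : ℤ) + m)) * #(Bn ((R0 : ℤ) + m)))
          = (2 ^ #(Bn ((R0 : ℤ) + m)) * #(Bn (m : ℤ))) * #(Bn ((R0 : ℤ) + m)) := by ring
        _ ≤ _ := by gcongr
    have h3 : 1 - (4 * R0 : ℕ) / ((R0 + m : ℕ) : ℝ) ≤
        ((#(Bn (m : ℤ)) : ℝ)) / #(Bn ((R0 + m : ℕ) : ℤ)) := by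
      rw [card_Bn, card_Bn]
      push_cast at hn0 ⊢
      rw [← div_pow]
      have hden : (0 : ℝ) < 2 * ((R0 : ℝ) + m) + 1 := by linarith
      have e1 : (2 * (m : ℝ) + 1) / (2 * ((R0 : ℝ) + m) + 1) =
          1 + (-(2 * (R0 : ℝ) / (2 * ((R0 : ℝ) + m) + 1))) := by
        field_simp
        ring
      rw [e1]
      have hR : (0 : ℝ) ≤ R0 := Nat.cast_nonneg _
      have hmm : (0 : ℝ) ≤ m := Nat.cast_nonneg _
      have e2 : 2 * (R0 : ℝ) / (2 * ((R0 : ℝ) + m) + 1) ≤ (R0 : ℝ) / ((R0 : ℝ) + m) := by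
        rw [div_le_div_iff₀ hden hn0]
        nlinarith
      have e3 : (2 * (R0 : ℝ) / (2 * ((R0 : ℝ) + m) + 1)) ≤ 1 := by
        rw [div_le_one hden]
        linarith
      have e4 := one_add_mul_le_pow (a := -(2 * (R0 : ℝ) / (2 * ((R0 : ℝ) + m) + 1)))
        (by linarith) 4
      refine le_trans ?_ e4
      push_cast
      have e5 : 4 * (R0 : ℝ) / ((R0 : ℝ) + m) = 4 * ((R0 : ℝ) / ((R0 : ℝ) + m)) := by ring
      rw [e5]
      linarith
    linarith

theorem Fo_nonempty (n : ℕ) : (Fo n).Nonempty :=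
  ⟨1, mem_Fo.2 ⟨by simp [one_def'], by rw [mem_Bn]; intro i; simp [one_def']⟩⟩

theorem haagerup_WG : Haagerup WG := by
  apply haagerup_of_folner (fun k => Fo ((2 ^ k : ℕ) : ℤ)) (fun k => Fo_nonempty _)
  · intro a b hab x hx
    rw [mem_Fo] at hx ⊢
    have h1 : Bn ((2 ^ a : ℕ) : ℤ) ⊆ Bn ((2 ^ b : ℕ) : ℤ) :=
      Bn_mono (by exact_mod_cast Nat.pow_le_pow_right (by norm_num) hab)
    exact ⟨hx.1.trans h1, h1 hx.2⟩
  · intro g
    obtain ⟨R, hR⟩ := one_sub_ph_le g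
    refine Summable.of_nonneg_of_le (fun k => sub_nonneg.2 (ph_le_one _ _)) (fun k => ?_)
      ((summable_geometric_two).mul_left (R : ℝ))
    have := hR (2 ^ k) Nat.one_le_two_pow
    refine this.trans (le_of_eq ?_)
    push_cast
    rw [one_div, inv_pow]
    ring

/-- Følner's condition -/
def Folner (G : Type) [Group G] : Prop :=
  ∀ (S : Finset G) (ε : ℝ), 0 < ε → ∃ F : Finset G, F.Nonempty ∧
    ∀ g ∈ S, ({x : G | x ∈ F ∧ x * g ∉ F}.ncard : ℝ) ≤ ε * #F

theorem folner_WG : Folner WG := by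
  intro S ε hε
  choose R hR using one_sub_ph_le
  obtain ⟨N, hN⟩ := exists_nat_gt ((∑ g ∈ S, (R g : ℝ)) / ε)
  refine ⟨Fo ((N + 1 : ℕ) : ℤ), Fo_nonempty _, fun g hg => ?_⟩
  have h1 := hR g (N + 1) (by omega)
  have h2 : (R g : ℝ) ≤ ∑ g ∈ S, (R g : ℝ) :=
    Finset.single_le_sum (f := fun g => (R g : ℝ)) (fun _ _ => Nat.cast_nonneg _) hg
  have hF : (0 : ℝ) < #(Fo ((N + 1 : ℕ) : ℤ)) := by
    exact_mod_cast card_pos.2 (Fo_nonempty _)
  have h3 : (R g : ℝ) / ((N + 1 : ℕ) : ℝ) ≤ ε := by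
    rw [div_le_iff₀ (by positivity)]
    rw [div_lt_iff₀ hε] at hN
    push_cast
    nlinarith
  have h4 : ({x : WG | x ∈ Fo ((N + 1 : ℕ) : ℤ) ∧ x * g ∉ Fo ((N + 1 : ℕ) : ℤ)}.ncard : ℝ) =
      #{x ∈ Fo ((N + 1 : ℕ) : ℤ) | ¬ (x * g ∈ Fo ((N + 1 : ℕ) : ℤ))} := by
    rw [← Set.ncard_coe_finset]
    congr 2
    ext x
    simp
  have h5 := Finset.card_filter_add_card_filter_not (s := Fo ((N + 1 : ℕ) : ℤ))
    (fun x => x * g ∈ Fo ((N + 1 : ℕ) : ℤ))
  have h6 : (#{x ∈ Fo ((N + 1 : ℕ) : ℤ) | x * g ∈ Fo ((N + 1 : ℕ) : ℤ)} : ℝ) +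
      #{x ∈ Fo ((N + 1 : ℕ) : ℤ) | ¬ (x * g ∈ Fo ((N + 1 : ℕ) : ℤ))} =
      #(Fo ((N + 1 : ℕ) : ℤ)) := by exact_mod_cast h5
  rw [h4]
  unfold ph at h1
  have h7 : 1 - (#{x ∈ Fo ((N + 1 : ℕ) : ℤ) | x * g ∈ Fo ((N + 1 : ℕ) : ℤ)} : ℝ) /
      #(Fo ((N + 1 : ℕ) : ℤ)) ≤ ε := h1.trans h3
  rw [sub_le_iff_le_add, ← sub_le_iff_le_add', le_div_iff₀ hF] at h7
  nlinarith

end Pool.Agent.X23.HP
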