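import Pool.Agent.X23.HP.Wreath

/-!
# The switch-walk-switch random walk
-/

set_option autoImplicit false

open Finset
open scoped symmDiff

namespace Pool.Agent.X23.HP

/-- the set of steps -/
abbrev TT := Fin 4 → Bool

/-- the step -/
def mv (τ : TT) : V4 := fun i => if τ i then 1 else -1

/-- the opposite step -/
def ng (τ : TT) : TT := fun i => !τ i

theorem mv_ng (τ : TT) : mv (ng τ) = -mv τ := by
  funext i
  rcases h : τ i with _ | _ <;> simp [mv, ng, h]

theorem ng_ng (τ : TT) : ng (ng τ) = τ := by
  funext i
  simp [ng]

/-- `ng` as an equivalence -/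
def ngE : TT ≃ TT := ⟨ng, ng, ng_ng, ng_ng⟩

/-- expectation over the paths of length `n` -/
noncomputable def PE : ℕ → (List TT → ℝ) → ℝ
  | 0, F => F []
  | n + 1, F => (1 / 16) * ∑ τ : TT, PE n (fun l => F (τ :: l))

theorem card_TT : Fintype.card TT = 16 := by simp [TT]

theorem PE_const (n : ℕ) (c : ℝ) : PE n (fun _ => c) = c := by
  induction n with
  | zero => rfl
  | succ n ih =>
    rw [PE]
    simp only [ih, Finset.sum_const, Finset.card_univ, card_TT, nsmul_eq_mul]
    push_cast
    ring

theorem PE_mono (n : ℕ) {F G : List TT → ℝ} (h : ∀ l, l.length = n → F l ≤ G l) :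
    PE n F ≤ PE n G := by
  induction n generalizing F G with
  | zero => exact h [] rfl
  | succ n ih =>
    rw [PE, PE]
    have : ∀ τ, PE n (fun l => F (τ :: l)) ≤ PE n (fun l => G (τ :: l)) := fun τ =>
      ih fun l hl => h _ (by simp [hl])
    have h2 := Finset.sum_le_sum (s := (univ : Finset TT)) fun τ _ => this τ
    linarith

theorem PE_congr (n : ℕ) {F G : List TT → ℝ} (h : ∀ l, l.length = n → F l = G l) :
    PE n F = PE n G :=
  le_antisymm (PE_mono n fun l hl => (h l hl).le) (PE_mono n fun l hl => (h l hl).ge)

theorem PE_add' (n : ℕ) (F G : List TT → ℝ) : PE n (fun l => F l + G l) = PE n F + PE n G := by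
  induction n generalizing F G with
  | zero => rfl
  | succ n ih =>
    rw [PE, PE, PE]
    simp only [ih, Finset.sum_add_distrib]
    ring

theorem PE_mul (n : ℕ) (c : ℝ) (F : List TT → ℝ) : PE n (fun l => c * F l) = c * PE n F := by
  induction n generalizing F with
  | zero => rfl
  | succ n ih =>
    rw [PE, PE]
    simp only [ih, ← Finset.mul_sum]
    ring

theorem PE_sum {ι : Type*} (n : ℕ) (s : Finset ι) (F : ι → List TT → ℝ) :
    PE n (fun l => ∑ i ∈ s, F i l) = ∑ i ∈ s, PE n (F i) := by
  classical
  induction s using Finset.induction_on with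
  | empty => simpa using PE_const n 0
  | insert a s ha ih =>
    simp only [Finset.sum_insert ha]
    rw [PE_add', ih]

theorem PE_append (m n : ℕ) (F : List TT → ℝ) :
    PE (m + n) F = PE m (fun l => PE n (fun l' => F (l ++ l'))) := by
  induction m generalizing F with
  | zero => rw [Nat.zero_add]; rfl
  | succ m ih =>
    rw [Nat.succ_add, PE, PE]
    simp only [ih, List.cons_append]

/-- the reversed path -/
def rv (l : List TT) : List TT := (l.map ng).reverse

theorem rv_cons (τ : TT) (l : List TT) : rv (τ :: l) = rv l ++ [ng τ] := by simp [rv]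

theorem PE_rv (n : ℕ) (F : List TT → ℝ) : PE n (fun l => F (rv l)) = PE n F := by
  induction n generalizing F with
  | zero => rfl
  | succ n ih =>
    rw [PE]
    simp only [rv_cons]
    have h1 : ∀ τ, PE n (fun l => F (rv l ++ [ng τ])) = PE n (fun l => F (l ++ [ng τ])) :=
      fun τ => ih (fun l => F (l ++ [ng τ]))
    simp only [h1]
    rw [PE_append n 1 F]
    have h2 : ∀ l, PE 1 (fun l' => F (l ++ l')) = (1 / 16) * ∑ τ : TT, F (l ++ [τ]) := by
      intro l
      rfl
    simp only [h2]
    rw [PE_mul, PE_sum]
    congr 1
    exact Equiv.sum_comp ngE (fun τ => PE n (fun l => F (l ++ [τ])))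

/-- the end point -/
def vl : List TT → V4
  | [] => 0
  | τ :: l => mv τ + vl l

/-- the set of the visited points -/
def AA : List TT → Finset V4
  | [] => {0}
  | τ :: l => insert 0 (sh (mv τ) (AA l))

theorem vl_append (l l' : List TT) : vl (l ++ l') = vl l + vl l' := by
  induction l with
  | nil => simp [vl]
  | cons τ l ih => simp only [List.cons_append, vl, ih, add_assoc]

theorem zero_mem_AA (l : List TT) : (0 : V4) ∈ AA l := by
  cases l with
  | nil => simp [AA]
  | cons τ l => simp [AA]

theorem mem_AA_append (l l' : List TT) : AA (l ++ l') = AA l ∪ sh (vl l) (AA l') := by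
  induction l with
  | nil =>
    ext x
    simp only [List.nil_append, AA, vl, mem_union, mem_sh, mem_singleton, neg_zero, zero_add]
    constructor
    · exact Or.inr
    · rintro (rfl | h)
      · exact zero_mem_AA _
      · exact h
  | cons τ l ih =>
    ext x
    simp only [List.cons_append, AA, ih, vl, mem_union, mem_sh, mem_insert, neg_add_rev]
    rw [show -vl l + -mv τ + x = -vl l + (-mv τ + x) by abel]
    tauto

theorem vl_rv (l : List TT) : vl (rv l) = -vl l := by
  induction l with
  | nil => simp [vl, rv]
  | cons τ l ih =>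
    rw [rv_cons, vl_append, ih]
    simp only [vl, mv_ng, add_zero, neg_add_rev]

theorem AA_rv (l : List TT) : AA (rv l) = sh (-vl l) (AA l) := by
  induction l with
  | nil =>
    ext x
    simp [AA, rv, vl, mem_sh]
  | cons τ l ih =>
    rw [rv_cons, mem_AA_append, ih, vl_rv]
    ext x
    simp only [AA, vl, mem_union, mem_sh, mem_insert, mem_singleton, mv_ng, neg_neg, neg_add_rev]
    have h0 := zero_mem_AA l
    rw [show - mv τ + (mv τ + vl l + x) = vl l + x by abel]
    constructor
    · rintro (h | h | h)
      · right; exact h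
      · right
        rw [h]
        exact h0
      · left
        rw [← h]
        abel
    · rintro (h | h)
      · right; right
        rw [← h]
        abel
      · left; exact h

/-- average over the subsets -/
noncomputable def avgP (A : Finset V4) (g : Finset V4 → ℝ) : ℝ :=
  (∑ S ∈ A.powerset, g S) / 2 ^ #A

theorem singleton_symmDiff {w : V4} {S : Finset V4} (h : w ∉ S) : {w} ∆ S = insert w S := by
  ext x
  rw [mem_symmDiff', mem_singleton, mem_insert]
  by_cases hx : x = w
  · subst hx; tauto
  · tauto

theorem avgP_insert (A : Finset V4) (w : V4) (g : Finset V4 → ℝ) :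
    avgP (insert w A) g = (avgP A g + avgP A (fun S => g ({w} ∆ S))) / 2 := by
  unfold avgP
  by_cases hw : w ∈ A
  · rw [insert_eq_of_mem hw]
    have h1 : ∑ S ∈ A.powerset, g ({w} ∆ S) = ∑ S ∈ A.powerset, g S := by
      apply Finset.sum_nbij' (fun S => {w} ∆ S) (fun S => {w} ∆ S)
      · intro S hS
        rw [mem_powerset] at hS ⊢
        intro x hx
        rw [mem_symmDiff', mem_singleton] at hx
        by_cases hxw : x = w
        · rw [hxw]; exact hw
        · exact hS (by tauto)
      · intro S hS
        rw [mem_powerset] at hS ⊢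
        intro x hx
        rw [mem_symmDiff', mem_singleton] at hx
        by_cases hxw : x = w
        · rw [hxw]; exact hw
        · exact hS (by tauto)
      · intro S _
        rw [symmDiff_symmDiff_cancel_left]
      · intro S _
        rw [symmDiff_symmDiff_cancel_left]
      · intro S _
        rfl
    rw [h1]
    ring
  · rw [Finset.sum_powerset_insert hw, card_insert_of_notMem hw, pow_succ]
    have h1 : ∑ S ∈ A.powerset, g (insert w S) = ∑ S ∈ A.powerset, g ({w} ∆ S) := by
      refine Finset.sum_congr rfl fun S hS => ?_
      rw [singleton_symmDiff (fun h => hw (mem_powerset.1 hS h))]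
    rw [h1]
    field_simp

theorem avgP_empty (g : Finset V4 → ℝ) : avgP ∅ g = g ∅ := by
  simp [avgP]

theorem avgP_union (A B : Finset V4) (g : Finset V4 → ℝ) :
    avgP (A ∪ B) g = avgP A (fun S => avgP B (fun S' => g (S ∆ S'))) := by
  induction A using Finset.induction_on generalizing g with
  | empty =>
    rw [avgP_empty, empty_union]
    simp only [← Finset.bot_eq_empty, bot_symmDiff]
  | insert w A _ ih =>
    rw [insert_union, avgP_insert, ih, ih, avgP_insert]
    simp only [symmDiff_assoc]

theorem avgP_sh (v : V4) (A : Finset V4) (g : Finset V4 → ℝ) :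
    avgP (sh v A) g = avgP A (fun S => g (sh v S)) := by
  induction A using Finset.induction_on generalizing g with
  | empty =>
    have : sh v ∅ = ∅ := rfl
    rw [this, avgP_empty, avgP_empty, this]
  | insert w A _ ih =>
    have h1 : sh v (insert w A) = insert (v + w) (sh v A) := by
      unfold sh
      rw [map_insert]
      rfl
    have h2 : ∀ S, {v + w} ∆ sh v S = sh v ({w} ∆ S) := by
      intro S
      ext x
      simp only [mem_symmDiff', mem_sh, mem_singleton]
      have : x = v + w ↔ -v + x = w := by
        constructor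
        · rintro rfl; abel
        · rintro rfl; abel
      rw [this]
    rw [h1, avgP_insert, ih, ih, avgP_insert]
    simp only [h2]

/-- the average over the lamps -/
noncomputable def Av (f : WG → ℝ) (l : List TT) : ℝ := avgP (AA l) (fun S => f ⟨S, vl l⟩)

/-- the expectation over the walk of length `n` -/
noncomputable def EX (n : ℕ) (f : WG → ℝ) : ℝ := PE n (Av f)

theorem PE_avgP (n : ℕ) (A : Finset V4) (F : Finset V4 → List TT → ℝ) :
    PE n (fun l => avgP A (fun S => F S l)) = avgP A (fun S => PE n (F S)) := by
  unfold avgP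
  simp only [div_eq_inv_mul]
  rw [PE_mul, PE_sum]

theorem EX_add (m n : ℕ) (f : WG → ℝ) :
    EX (m + n) f = EX m (fun g => EX n (fun h => f (g * h))) := by
  unfold EX
  rw [PE_append]
  apply PE_congr
  intro l _
  unfold Av
  rw [← PE_avgP]
  apply PE_congr
  intro l' _
  rw [mem_AA_append, vl_append, avgP_union]
  congr 1
  funext S
  rw [avgP_sh]
  rfl

theorem EX_inv (n : ℕ) (f : WG → ℝ) : EX n (fun g => f g⁻¹) = EX n f := by
  unfold EX
  rw [← PE_rv n (Av f)]
  apply PE_congr
  intro l _
  unfold Av
  rw [AA_rv, vl_rv, avgP_sh]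
  rfl

end Pool.Agent.X23.HP
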