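import Mathlib

/-!
# The lamplighter group over `ℤ⁴`
-/

set_option autoImplicit false

open Finset
open scoped symmDiff

namespace Pool.Agent.X23.HP

/-- `ℤ⁴` -/
abbrev V4 := Fin 4 → ℤ

/-- The wreath product `ℤ/2 ≀ ℤ⁴`: a finite set of lamps that are on, and a position. -/
@[ext] structure WG where
  /-- the set of lamps that are on -/
  lamp : Finset V4
  /-- the position -/
  pos : V4
  deriving DecidableEq

/-- translation of a set of lamps -/
def sh (v : V4) (S : Finset V4) : Finset V4 := S.map (addLeftEmbedding v)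

theorem mem_sh {v x : V4} {S : Finset V4} : x ∈ sh v S ↔ -v + x ∈ S := by
  unfold sh
  rw [mem_map]
  constructor
  · rintro ⟨y, hy, rfl⟩
    simpa using hy
  · intro h
    exact ⟨_, h, by simp⟩

theorem card_sh (v : V4) (S : Finset V4) : #(sh v S) = #S := card_map _

instance : Mul WG := ⟨fun a b => ⟨a.lamp ∆ sh a.pos b.lamp, a.pos + b.pos⟩⟩

instance : One WG := ⟨⟨∅, 0⟩⟩

instance : Inv WG := ⟨fun a => ⟨sh (-a.pos) a.lamp, -a.pos⟩⟩

theorem mul_def' (a b : WG) : a * b = ⟨a.lamp ∆ sh a.pos b.lamp, a.pos + b.pos⟩ := rfl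

theorem one_def' : (1 : WG) = ⟨∅, 0⟩ := rfl

theorem inv_def' (a : WG) : a⁻¹ = ⟨sh (-a.pos) a.lamp, -a.pos⟩ := rfl

theorem mem_symmDiff' {x : V4} {S T : Finset V4} : x ∈ S ∆ T ↔ ¬ (x ∈ S ↔ x ∈ T) := by
  rw [Finset.mem_symmDiff]
  tauto

instance : Group WG := Group.ofLeftAxioms
  (by
    intro a b c
    ext x
    · simp only [mul_def', mem_symmDiff', mem_sh, neg_add_rev]
      rw [show -b.pos + -a.pos + x = -b.pos + (-a.pos + x) by abel]
      tauto
    · simp only [mul_def', Pi.add_apply]
      ring)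
  (by
    intro a
    ext x
    · simp [mul_def', one_def', mem_symmDiff', mem_sh]
    · simp [mul_def', one_def'])
  (by
    intro a
    ext x
    · simp [mul_def', one_def', inv_def', mem_symmDiff', mem_sh]
    · simp [mul_def', one_def', inv_def'])

theorem inv_def'' (a : WG) : a⁻¹ = ⟨sh (-a.pos) a.lamp, -a.pos⟩ := rfl

instance : Countable WG := by
  have : Function.Injective (fun a : WG => (a.lamp, a.pos)) := by
    intro a b h
    simp only [Prod.mk.injEq] at h
    exact WG.ext h.1 h.2
  exact this.countable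

instance : Infinite WG := by
  have : Function.Injective (fun z : ℤ => (⟨∅, fun _ => z⟩ : WG)) := by
    intro a b h
    have := congrArg (fun w : WG => w.pos 0) h
    exact this
  exact Infinite.of_injective _ this

end Pool.Agent.X23.HP
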